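import Pool.Agent.H5.BHG.Stmts

/-!
Row LVG of the board `bhg` (adapted from `Pool/Agent/H26/DPG/LVC.lean`)
-/

set_option autoImplicit false

namespace Pool.BHG

open Filter TMLib Pool.PG Pool.DPG

theorem lvg_thm (hFDG : FDGStmt) (hRCG : RCGStmt) : LVGStmt := by
  intro S C R g P hg hS hR hPh H t
  obtain ⟨-, hF2, hF3, -⟩ := fsb_thm
  induction t with
  | zero =>
    intro X _ _ h
    exact absurd h (Nat.not_lt_zero _)
  | succ t ih =>
    intro X hX hPX hcnt
    show upp S C R g X (rcg S C R g t (nx S C g X)) ≠ []
    have hXl : X.length = g.length := hX.1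
    unfold upp
    by_cases he : (X.any fun b => b) = false
    · rw [if_pos he]
      exact lvc_msk_ne g hg _
    rw [if_neg he]
    have he' : (X.any fun b => b) = true := by
      cases h : (X.any fun b => b)
      · exact absurd h he
      · rfl
    have hcard : cnt X = (fs g X).card := (hF3 g X hXl).1
    have hne : (fs g X).Nonempty := (hF3 g X hXl).2.1 he'
    have key : ∀ (i : Bool) (T : List Bool), (fs g (att i g X T)).Nonempty →
        Sub g (dif g X (att i g X T)) ∧ rcg S C R g t (dif g X (att i g X T)) ≠ [] := by
      intro i T hT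
      have hsub : Sub g (dif g X (att i g X T)) := (dsb_all g i X T hX).1
      have hA := (atl_thm g i X T hXl).2
      refine ⟨hsub, ?_⟩
      refine ih _ hsub (hPh _ _ ?_ hPX) ?_
      · rw [hF2]
        exact Finset.sdiff_subset
      · rw [(hF3 g _ hsub.1).1, hF2]
        have h3 := lvc_card_lt _ _ hA.2.1 hT
        omega
    by_cases hf : fd S C g X = []
    · have hnx : nx S C g X = dif g X (nA g X) := by
        unfold nx
        rw [if_pos hf]
      have hMP := mpr_all g X hne
      have hAne : (fs g (att (pl g X) g X (tp g X))).Nonempty := by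
        obtain ⟨a, ha⟩ := hMP.2.2.1
        refine ⟨a, (atl_thm g (pl g X) X (tp g X) hXl).2.1 ?_⟩
        refine Finset.mem_inter.2 ⟨?_, ha⟩
        rw [hMP.2.1] at ha
        exact (Finset.mem_filter.1 ha).1
      obtain ⟨hsub, hL⟩ := key (pl g X) (tp g X) hAne
      have hLab : Lab g (dif g X (nA g X)) (rcg S C R g t (dif g X (nA g X))) :=
        hRCG S C R g hS hR t _ hsub hL
      rw [if_pos hf, hnx]
      have hL' : rcg S C R g t (dif g X (nA g X)) ≠ [] := hL
      generalize rcg S C R g t (dif g X (nA g X)) = L at hLab hL'
      unfold zs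
      rw [if_neg hL']
      by_cases hbad : ((bad g X L).any fun b => b) = false
      · rw [if_pos hbad]
        exact lvc_msk_ne g hg _
      · rw [if_neg hbad]
        apply lvc_jn_ne g hg
        have hbad' : (bad g X L).any (fun b => b) = true := by
          cases h : (bad g X L).any (fun b => b)
          · exact absurd h hbad
          · rfl
        obtain ⟨hD, hBne⟩ := bdm_all g X L hX hLab
        have hAt := (atl_thm g (!pl g X) X (bad g X L) hXl).2
        have hCls : Cls g X (!pl g X) (fs g (att (!pl g X) g X (bad g X L))) := hAt.2.2.2.1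
        exact H X _ (!pl g X) hX hPX hf (dsb_all g _ X _ hX).1 hAt.2.1 (hBne hbad') hD hCls
    · have hnx : nx S C g X = dif g X (att (f1 S C g X).1 g X (f1 S C g X).2) := by
        unfold nx
        rw [if_neg hf]
      have hmem : f1 S C g X ∈ fd S C g X := by
        unfold f1
        cases h : fd S C g X with
        | nil => exact absurd h hf
        | cons q l => simp
      have hq := hFDG S C g X hS hX _ hmem
      obtain ⟨_, hL⟩ := key _ _ hq.1
      rw [if_neg hf, hnx]
      exact lvc_jn_ne g hg _ _ _ hL

end Pool.BHG
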