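import Pool.Agent.H5.BHG.Stmts

/-!
Row ONS of the board `bhg`
-/

set_option autoImplicit false

namespace Pool.BHG

open Filter TMLib Pool.PG Pool.DPG

theorem ons_congr {V : Type} {own : V → Bool} {pri : V → ℕ} {E : V → V → Prop} {S : Finset V}
    {W W' : V → Bool} {σ : V → V} (h : SolS own pri E S W σ) (hW : ∀ v ∈ S, W' v = W v) :
    SolS own pri E S W' σ where
  mem := h.mem
  stay v hv ho := by
    rw [hW v hv] at ho ⊢
    rw [hW _ (h.mem v hv).1]
    exact h.stay v hv ho
  trap v hv ho w hw he := by
    rw [hW v hv] at ho ⊢
    rw [hW w hw]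
    exact h.trap v hv ho w hw he
  won v hv x hx hS hσ := by
    rw [hW v hv]
    refine h.won v hv x hx hS fun n hn => hσ n ?_
    rw [hW v hv]
    exact hn

theorem ons_msk (g : Game) (f : ℕ → Bool) (v : ℕ) (hv : v < g.length) :
    (msk g.length f).getD v false = f v := by
  have h := (fsb_thm.1 g f).2
  have h1 : v ∈ fs g (msk g.length f) ↔ f v = true := by
    rw [h, Finset.mem_filter, Finset.mem_range]
    exact ⟨fun k => k.2, fun k => ⟨hv, k⟩⟩
  have h2 : v ∈ fs g (msk g.length f) ↔ (msk g.length f).getD v false = true := by
    unfold fs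
    rw [Finset.mem_filter, Finset.mem_range]
    exact ⟨fun k => k.2, fun k => ⟨hv, k⟩⟩
  rw [Bool.eq_iff_iff, ← h1, h2]

theorem ons_fs (g : Game) (X : List Bool) (v : ℕ) :
    v ∈ fs g X ↔ v < g.length ∧ X.getD v false = true := by
  unfold fs
  rw [Finset.mem_filter, Finset.mem_range]

theorem ons_all (g : Game) (X : List Bool) (f : ℕ → Bool) :
    ((List.range g.length).all fun v => !X.getD v false || f v) = true ↔
      ∀ v ∈ fs g X, f v = true := by
  rw [List.all_eq_true]
  constructor
  · intro h v hv
    obtain ⟨h1, h2⟩ := (ons_fs g X v).1 hv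
    have h3 := h v (List.mem_range.2 h1)
    rw [h2] at h3
    simpa using h3
  · intro h v hv
    cases h2 : X.getD v false
    · rfl
    · rw [h v ((ons_fs g X v).2 ⟨List.mem_range.1 hv, h2⟩)]
      rfl

theorem ons_thm (hONW : ONWStmt) : ONSStmt := by
  refine ⟨fun g X hX hne => ?_, fun g X q hg _ hq => ?_⟩
  · obtain ⟨W, σ, hW⟩ := dta_row atr_row ℕ (own g) (pri g) (fun v w => w ∈ suc g v) (fs g X) hX.2
    by_cases h1 : ((List.range g.length).all fun v => !X.getD v false || own g v) = true
    · have e : one g X = msk g.length fun v => (one1 true g X).getD v false := by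
        unfold one
        rw [if_pos h1]
      rw [e]
      refine ⟨(fsb_thm.1 g _).1, σ, ons_congr hW fun v hv => ?_⟩
      have hv1 := ((ons_fs g X v).1 hv).1
      have h2 := hONW g true X W σ hX ((ons_all g X _).1 h1) hW v hv
      rw [ons_msk g _ v hv1, Bool.eq_iff_iff, ← h2, ons_fs]
      exact ⟨fun k => ⟨hv1, k⟩, fun k => k.2⟩
    · by_cases h3 : ((List.range g.length).all fun v => !X.getD v false || !own g v) = true
      · have e : one g X = msk g.length fun v => !(one1 false g X).getD v false := by
          unfold one
          rw [if_neg h1, if_pos h3]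
        rw [e]
        refine ⟨(fsb_thm.1 g _).1, σ, ons_congr hW fun v hv => ?_⟩
        have hv1 := ((ons_fs g X v).1 hv).1
        have h4 : ∀ v ∈ fs g X, own g v = false := fun v hv => by
          have := (ons_all g X fun v => !own g v).1 h3 v hv
          simpa using this
        have h2 := hONW g false X W σ hX h4 hW v hv
        rw [ons_msk g _ v hv1]
        have h5 : (one1 false g X).getD v false = true ↔ W v = false := by
          rw [← h2, ons_fs]
          exact ⟨fun k => ⟨hv1, k⟩, fun k => k.2⟩
        cases hw : W v <;> cases ho : (one1 false g X).getD v false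
        · rw [hw, ho] at h5
          simp at h5
        · rfl
        · rfl
        · rw [hw, ho] at h5
          simp at h5
      · exfalso
        apply hne
        unfold one
        rw [if_neg h1, if_neg h3]
  · unfold one
    by_cases h1 : ((List.range g.length).all fun v => !X.getD v false || own g v) = true
    · rw [if_pos h1]
      exact lvc_msk_ne g hg _
    · rw [if_neg h1]
      cases q
      · rw [if_pos ((ons_all g X fun v => !own g v).2 fun v hv => by rw [hq v hv]; rfl)]
        exact lvc_msk_ne g hg _
      · exact absurd ((ons_all g X _).2 hq) h1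

end Pool.BHG
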